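import Pool.Agent.W95.EQ.Stm

/-! EQM-DIC: the dichotomy. -/

open Polynomial Topology Filter MeasureTheory

namespace Pool.Agent.W605.EQ

open Pool.Agent.W95.BK Pool.Agent.W95.EQ

universe u

section

variable {K : Type u} [NontriviallyNormedField K] [IsUltrametricDist K]

theorem gauss_congr {a a' : K} {r r' : ℝ} (ha : a = a') (hrr : r = r') (hr : 0 < r)
    (hr2 : 0 < r') : gauss a r hr = gauss a' r' hr2 := by
  subst ha; subst hrr; rfl

omit [IsUltrametricDist K] in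
theorem kap01 (x : P1B K) : kap (0 : K) 1 x = 0 := by
  unfold kap
  induction x using OnePoint.rec with
  | infty => rfl
  | coe y =>
    simp only [OnePoint.elim_some]
    unfold lam
    rw [C_0, sub_zero, max_comm, sub_self]

/-- A type II point, given by the centre and an element whose norm is the radius. -/
abbrev TP (K : Type u) [NontriviallyNormedField K] := K × {c : K // c ≠ 0}

omit [IsUltrametricDist K] in
theorem TP.pos (p : TP K) : 0 < ‖(p.2 : K)‖ := norm_pos_iff.2 p.2.2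

/-- The point of the affine line. -/
noncomputable def ty (p : TP K) : BA K := gauss p.1 ‖(p.2 : K)‖ (TP.pos p)

theorem ty_HK (hG : S_GLAM.{u}) (p : TP K) : HK (ty p) := by
  intro b hb
  have h1 := (hG K p.1 b).2 ‖(p.2 : K)‖ (TP.pos p)
  have h2 := (hG K b b).1
  have h3 : lam (ty p) b = lam (cl b) b := by rw [hb]
  unfold ty at h3
  rw [h1, h2, sub_self, norm_zero] at h3
  have h4 := TP.pos p
  have h5 := le_max_right ‖p.1 - b‖ ‖(p.2 : K)‖
  linarith

theorem ty_X (hG : S_GLAM.{u}) (p : TP K) : (ty p) X = max ‖p.1‖ ‖(p.2 : K)‖ := by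
  have h1 := (hG K p.1 0).2 ‖(p.2 : K)‖ (TP.pos p)
  unfold lam at h1
  rw [C_0, sub_zero, sub_zero] at h1
  exact h1

theorem pow_bound (d : ℝ) (hd : 2 ≤ d) (x B : ℝ) (h : ∀ n : ℕ, d ^ n * x ≤ B) : x ≤ 0 := by
  by_contra hx
  push Not at hx
  have h1 : Tendsto (fun n : ℕ => d ^ n) atTop atTop :=
    tendsto_pow_atTop_atTop_of_one_lt (by linarith)
  obtain ⟨n, hn⟩ := (h1.eventually_gt_atTop (B / x)).exists
  have h2 := h n
  rw [div_lt_iff₀ hx] at hn
  linarith

end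

theorem main (hKAPC : S_KAPC.{u}) (hKID : S_KID.{u}) (hACTG : S_ACTG.{u}) (hGRF : S_GRF.{u})
    (hDLL : S_DLL.{u}) (hGREEN : S_GREEN.{u}) (hGLAM : S_GLAM.{u}) : S_DIC.{u} := by
  intro K _ _ _ R hd ρ hρ hInv
  have hdR : (2 : ℝ) ≤ (R.d : ℝ) := by exact_mod_cast hd
  have hd1 : (0 : ℝ) < (R.d : ℝ) - 1 := by linarith
  -- the map on type II points
  have hex : ∀ p : TP K, ∃ q : TP K, R.act ((ty p : BA K) : P1B K) = ((ty q : BA K) : P1B K) := by
    intro p
    obtain ⟨b, e, t, ht, he, h⟩ := hACTG K R p.1 p.2 ‖(p.2 : K)‖ (TP.pos p) rfl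
    have he0 : e ≠ 0 := by
      rw [← norm_pos_iff, he]; exact ht
    refine ⟨(b, ⟨e, he0⟩), ?_⟩
    unfold ty
    rw [h]
    congr 1
    exact gauss_congr rfl he.symm _ _
  choose nx hnx using hex
  -- basic quantities
  obtain ⟨p₀, hp₀⟩ : ∃ p₀ : TP K, p₀ = (0, ⟨1, one_ne_zero⟩) := ⟨_, rfl⟩
  have hty0 : ty p₀ = gauss 0 1 one_pos := by
    rw [hp₀]
    exact gauss_congr rfl norm_one _ _
  obtain ⟨Kp, hKp⟩ : ∃ Kp : TP K → P1B K → ℝ, Kp = fun p => kap p.1 ‖(p.2 : K)‖ := ⟨_, rfl⟩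
  have hKp' : ∀ p, Kp p = kap p.1 ‖(p.2 : K)‖ := by
    intro p; rw [hKp]
  have hKc : ∀ p, Continuous (Kp p) := by
    intro p
    rw [hKp]
    exact (hKAPC K p.1 ‖(p.2 : K)‖ (TP.pos p)).1
  obtain ⟨M, hM⟩ : ∃ M : TP K → ℝ, M = fun p => Real.log (max 1 (max ‖p.1‖ ‖(p.2 : K)‖)) :=
    ⟨_, rfl⟩
  obtain ⟨L, hL⟩ : ∃ L : TP K → ℝ, L = fun p => - Real.log (sd p.1 ‖(p.2 : K)‖) := ⟨_, rfl⟩
  have hqk : ∀ p x, qk p.1 ‖((p : TP K).2 : K)‖ x = M p - Kp p x := by
    intro p x; rw [hM, hKp]; rfl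
  have hb1 : ∀ p x, 0 ≤ M p - Kp p x := by
    intro p x
    rw [← hqk]
    exact ((hKAPC K p.1 ‖(p.2 : K)‖ (TP.pos p)).2.2 x).1
  have hb2 : ∀ p x, M p - Kp p x ≤ L p := by
    intro p x
    rw [← hqk, hL]
    exact ((hKAPC K p.1 ‖(p.2 : K)‖ (TP.pos p)).2.2 x).2
  have hKi : ∀ p, Integrable (Kp p) ρ := by
    intro p
    refine Integrable.of_bound (hKc p).measurable.aestronglyMeasurable (|M p| + |L p|)
      (Eventually.of_forall fun x => ?_)
    have h1 := hb1 p x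
    have h2 := hb2 p x
    rw [Real.norm_eq_abs, abs_le]
    have h3 := neg_abs_le (M p)
    have h4 := le_abs_self (M p)
    have h5 := le_abs_self (L p)
    have h6 := abs_nonneg (L p)
    constructor <;> linarith
  obtain ⟨g₀, hg₀⟩ : ∃ g₀ : ℝ, g₀ = gr R (gauss 0 1 one_pos) := ⟨_, rfl⟩
  obtain ⟨D, hD⟩ : ∃ D : TP K → ℝ, D = fun p => (∫ x, Kp p x ∂ρ) - (gr R (ty p) - g₀) := ⟨_, rfl⟩
  have hD0 : D p₀ = 0 := by
    rw [hD]
    simp only []
    rw [hty0, ← hg₀]
    have h1 : ∀ x, Kp p₀ x = 0 := by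
      intro x
      rw [hKp, hp₀]
      simp only [norm_one]
      exact kap01 x
    simp only [h1, integral_zero]
    ring
  obtain ⟨κ, hκ⟩ : ∃ κ : ℝ, κ = D (nx p₀) := ⟨_, rfl⟩
  -- the main relation
  have hrel : ∀ p, D (nx p) - κ = R.d * D p := by
    intro p
    have e1 := hKID K R p.1 p.2 ‖(p.2 : K)‖ (TP.pos p) (nx p).1 ‖((nx p).2 : K)‖
      (TP.pos (nx p)) (nx p₀).1 ‖((nx p₀).2 : K)‖ (TP.pos (nx p₀)) rfl (hnx p)
      (by
        have := hnx p₀
        rw [hty0] at this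
        exact this)
    have e2 := hInv ⟨Kp p, hKc p⟩
    have e3 : (fun x => pushFun R (⟨Kp p, hKc p⟩ : C(P1B K, ℝ)) x)
        = fun x => Kp (nx p) x - Kp (nx p₀) x +
          (Real.log (gn p.1 ‖(p.2 : K)‖ R.Q) - Real.log (gn 0 1 R.Q)) := by
      funext x
      show pushFun R (Kp p) x = _
      rw [hKp' p, hKp' (nx p), hKp' (nx p₀)]
      exact e1 x
    rw [show (∫ x, pushFun R (⟨Kp p, hKc p⟩ : C(P1B K, ℝ)) x ∂ρ)
      = ∫ x, (Kp (nx p) x - Kp (nx p₀) x +
          (Real.log (gn p.1 ‖(p.2 : K)‖ R.Q) - Real.log (gn 0 1 R.Q))) ∂ρ by rw [← e3]] at e2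
    have hI1 : Integrable (fun x => Kp (nx p) x - Kp (nx p₀) x) ρ := (hKi _).sub (hKi _)
    rw [integral_add hI1 (integrable_const _),
      integral_sub (hKi _) (hKi _), integral_const] at e2
    simp only [probReal_univ, smul_eq_mul, one_mul] at e2
    have e4 : ∫ x, (⟨Kp p, hKc p⟩ : C(P1B K, ℝ)) x ∂ρ = ∫ x, Kp p x ∂ρ := rfl
    rw [e4] at e2
    have e5 := hGRF K R hd (ty p) (ty (nx p)) (ty_HK hGLAM p) (hnx p)
    have e6 := hGRF K R hd (ty p₀) (ty (nx p₀)) (ty_HK hGLAM p₀) (hnx p₀)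
    have e7 : (ty p) R.Q = gn p.1 ‖(p.2 : K)‖ R.Q := rfl
    have e8 : (ty p₀) R.Q = gn 0 1 R.Q := by rw [hty0]; rfl
    rw [e7] at e5
    rw [e8, hty0, ← hg₀] at e6
    rw [hκ, hD]
    simp only []
    rw [e5, e6]
    linear_combination e2
  obtain ⟨κ', hκ'⟩ : ∃ κ' : ℝ, κ' = κ / (R.d - 1) := ⟨_, rfl⟩
  have hκ2 : κ = R.d * κ' - κ' := by
    rw [hκ']; field_simp
  have hrel2 : ∀ p, D (nx p) + κ' = R.d * (D p + κ') := by
    intro p
    have := hrel p
    rw [hκ2] at this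
    linarith
  have hit : ∀ (n : ℕ) p, D (nx^[n] p) + κ' = (R.d : ℝ) ^ n * (D p + κ') := by
    intro n
    induction n with
    | zero => intro p; simp
    | succ n ih =>
      intro p
      rw [Function.iterate_succ_apply, ih, hrel2, pow_succ]
      ring
  obtain ⟨B, hB0, hB⟩ := hGREEN K R hd
  have hgr : ∀ p, |gr R (ty p) - M p| ≤ B := by
    intro p
    have := (hB (ty p)).1
    rw [ty_X hGLAM] at this
    rw [hM]
    exact this
  have hup : ∀ p, D p ≤ B + g₀ := by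
    intro p
    have h1 : ∫ x, Kp p x ∂ρ ≤ M p := by
      have h2 : ∫ x, Kp p x ∂ρ ≤ ∫ _x, M p ∂ρ :=
        integral_mono (hKi p) (integrable_const _) (fun x => by
          have := hb1 p x
          simp only []
          linarith)
      rw [integral_const] at h2
      simpa using h2
    have h3 := (abs_le.1 (hgr p)).1
    rw [hD]
    simp only []
    linarith
  have hneg : ∀ p, D p + κ' ≤ 0 := by
    intro p
    refine pow_bound R.d hdR _ (B + g₀ + κ') fun n => ?_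
    rw [← hit n p]
    have := hup (nx^[n] p)
    linarith
  by_cases hall : ∀ p, D p + κ' = 0
  · left
    intro a c r hr hc
    have hc0 : c ≠ 0 := by
      rw [← norm_pos_iff, hc]; exact hr
    have h1 := hall (a, ⟨c, hc0⟩)
    have h2 := hall p₀
    rw [hD0] at h2
    have h3 : D (a, ⟨c, hc0⟩) = 0 := by linarith
    rw [hD, hKp] at h3
    simp only [] at h3
    have h4 : ty ((a, ⟨c, hc0⟩) : TP K) = gauss a r hr := gauss_congr rfl hc _ _
    rw [h4, hg₀, hc] at h3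
    linarith
  · right
    push Not at hall
    obtain ⟨p, hp⟩ := hall
    obtain ⟨c, hc⟩ : ∃ c : ℝ, c = -(D p + κ') := ⟨_, rfl⟩
    have hc0 : 0 < c := by
      rw [hc]
      have := lt_of_le_of_ne (hneg p) hp
      linarith
    obtain ⟨B₂, hB₂, hDL⟩ := hDLL K R
    have hLn : ∀ p, L (nx p) ≤ R.d * L p + B₂ := by
      intro p
      rw [hL]
      exact hDL p.1 p.2 ‖(p.2 : K)‖ (TP.pos p) (nx p).1 ‖((nx p).2 : K)‖ (TP.pos (nx p)) rfl
        (hnx p)
    have hLit : ∀ n : ℕ, L (nx^[n] p) + B₂ ≤ (R.d : ℝ) ^ n * (L p + B₂) := by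
      intro n
      induction n with
      | zero => simp
      | succ n ih =>
        rw [Function.iterate_succ_apply', pow_succ]
        have h1 := hLn (nx^[n] p)
        have h2 : (R.d : ℝ) * (L (nx^[n] p) + B₂) ≤ (R.d : ℝ) * ((R.d : ℝ) ^ n * (L p + B₂)) :=
          mul_le_mul_of_nonneg_left ih (by linarith)
        nlinarith
    have hL0 : 0 ≤ L p := (hb1 p OnePoint.infty).trans (hb2 p OnePoint.infty)
    obtain ⟨C₂, hC₂⟩ : ∃ C₂ : ℝ, C₂ = L p + B₂ + 1 := ⟨_, rfl⟩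
    have hC₂0 : 0 < C₂ := by rw [hC₂]; linarith
    have hLC : ∀ n : ℕ, L (nx^[n] p) ≤ C₂ * (R.d : ℝ) ^ n := by
      intro n
      have h1 := hLit n
      have h2 : (0 : ℝ) < (R.d : ℝ) ^ n := by positivity
      rw [hC₂]
      nlinarith
    obtain ⟨C₁, hC₁⟩ : ∃ C₁ : ℝ, C₁ = B - g₀ - κ' := ⟨_, rfl⟩
    -- lower bound for the integral
    have hlow : ∀ n : ℕ, c * (R.d : ℝ) ^ n - C₁ ≤ M (nx^[n] p) - ∫ x, Kp (nx^[n] p) x ∂ρ := by
      intro n
      have h1 := hit n p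
      have h2 := (abs_le.1 (hgr (nx^[n] p))).2
      rw [hD] at h1
      simp only [] at h1
      have h3 : (R.d : ℝ) ^ n * (D p + κ') = - (c * (R.d : ℝ) ^ n) := by rw [hc]; ring
      rw [hD] at h3
      simp only [] at h3
      rw [h3] at h1
      rw [hC₁]
      linarith
    -- upper bound for the integral
    have hSm : ∀ (n : ℕ) (t : ℝ), MeasurableSet {x : P1B K | t ≤ M (nx^[n] p) - Kp (nx^[n] p) x} := by
      intro n t
      exact (isClosed_le continuous_const (continuous_const.sub (hKc _))).measurableSet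
    have hupp : ∀ n : ℕ, M (nx^[n] p) - ∫ x, Kp (nx^[n] p) x ∂ρ ≤ c / 2 * (R.d : ℝ) ^ n +
        C₂ * (R.d : ℝ) ^ n *
          ρ.real {x : P1B K | c / 2 * (R.d : ℝ) ^ n ≤ M (nx^[n] p) - Kp (nx^[n] p) x} := by
      intro n
      set S := {x : P1B K | c / 2 * (R.d : ℝ) ^ n ≤ M (nx^[n] p) - Kp (nx^[n] p) x} with hS
      have h1 : M (nx^[n] p) - ∫ x, Kp (nx^[n] p) x ∂ρ = ∫ x, (M (nx^[n] p) - Kp (nx^[n] p) x) ∂ρ := by
        rw [integral_sub (integrable_const _) (hKi _), integral_const]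
        simp
      have h2 : Integrable (S.indicator fun _ => C₂ * (R.d : ℝ) ^ n) ρ :=
        (integrable_const _).indicator (hSm n _)
      have h3 : ∫ x, (M (nx^[n] p) - Kp (nx^[n] p) x) ∂ρ ≤
          ∫ x, (c / 2 * (R.d : ℝ) ^ n + S.indicator (fun _ => C₂ * (R.d : ℝ) ^ n) x) ∂ρ := by
        refine integral_mono ((integrable_const _).sub (hKi _)) ((integrable_const _).add h2)
          fun x => ?_
        simp only []
        by_cases hx : x ∈ S
        · rw [Set.indicator_of_mem hx]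
          have h4 := (hb2 (nx^[n] p) x).trans (hLC n)
          have h5 : (0 : ℝ) ≤ c / 2 * (R.d : ℝ) ^ n := by positivity
          linarith
        · rw [Set.indicator_of_notMem hx, add_zero]
          rw [hS, Set.mem_ofPred_eq, not_le] at hx
          exact hx.le
      rw [integral_add (integrable_const _) h2, integral_const, integral_indicator_const _ (hSm n _)]
        at h3
      simp only [probReal_univ, smul_eq_mul, one_mul] at h3
      rw [h1, mul_comm (C₂ * (R.d : ℝ) ^ n)]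
      exact h3
    have htend : Tendsto (fun n : ℕ => (R.d : ℝ) ^ n) atTop atTop :=
      tendsto_pow_atTop_atTop_of_one_lt (by linarith)
    obtain ⟨n₀, hn₀⟩ := eventually_atTop.1 (htend.eventually_ge_atTop (4 * C₁ / c))
    refine ⟨c / (4 * C₂), fun n => (nx^[n + n₀] p).1, fun n => ‖((nx^[n + n₀] p).2 : K)‖,
      fun n => c / 2 * (R.d : ℝ) ^ (n + n₀), by positivity, fun n => TP.pos _, ?_, ?_⟩
    · have h1 : Tendsto (fun n : ℕ => (R.d : ℝ) ^ (n + n₀)) atTop atTop :=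
        htend.comp (tendsto_add_atTop_nat n₀)
      exact h1.const_mul_atTop (by positivity)
    · intro n
      have h1 := hlow (n + n₀)
      have h2 := hupp (n + n₀)
      have h3 := hn₀ (n + n₀) (by omega)
      have h4 : (0 : ℝ) < (R.d : ℝ) ^ (n + n₀) := by positivity
      simp only [hqk]
      set m := ρ.real {x : P1B K | c / 2 * (R.d : ℝ) ^ (n + n₀) ≤
        M (nx^[n + n₀] p) - Kp (nx^[n + n₀] p) x} with hm
      set X := (R.d : ℝ) ^ (n + n₀) with hX
      rw [div_le_iff₀ hc0] at h3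
      rw [div_le_iff₀ (by positivity)]
      have h5 : c * X - C₁ ≤ c / 2 * X + C₂ * X * m := h1.trans h2
      have h6 : c * X ≤ m * (4 * C₂) * X := by nlinarith
      exact le_of_mul_le_mul_right h6 h4

end Pool.Agent.W605.EQ
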